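import Mathlib

/-!
# A graph on 14 vertices that is not defeated in 14 attacks

We give a connected graph on 14 vertices and a configuration of `3 ≤ γ - 1` guards from which the
defender survives 16 attacks.
-/

set_option autoImplicit false

namespace Pool.Agent.Results.MP_18a4fa_co.LongAttack

section game

variable {V : Type*} [DecidableEq V] (G : SimpleGraph V)

/-- A response of the defender: from the configuration `C` (a set of occupied vertices) every guard
stays or moves along one edge, the guards end on distinct vertices, and the new configuration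
is `C'`. -/
def Response (C C' : Finset V) : Prop :=
  ∃ f : V → V, (∀ v ∈ C, f v = v ∨ G.Adj v (f v)) ∧ Set.InjOn f C ∧ C.image f = C'

/-- From the configuration `C` the attacker has a strategy that wins within at most `k` attacks,
against every response of the defender: he attacks a vertex `a`, and after every response that
occupies `a` (if there is one; otherwise he has won) he wins within `k - 1` more attacks. -/
def AttackerWins : ℕ → Finset V → Prop
  | 0, _ => False
  | k + 1, C => ∃ a, ∀ C', Response G C C' → a ∈ C' → AttackerWins k C'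

/-- `C` is an m-eternal dominating set: the defender can respond to every attack forever, i.e. `C`
belongs to a family of configurations within which every attack can be answered. -/
def Eternal (C : Finset V) : Prop :=
  ∃ F : Set (Finset V), C ∈ F ∧ ∀ D ∈ F, ∀ a, ∃ D' ∈ F, Response G D D' ∧ a ∈ D'

/-- The m-eternal domination number: the minimum size of an m-eternal dominating set. -/
noncomputable def gamma : ℕ := sInf {m : ℕ | ∃ C : Finset V, C.card = m ∧ Eternal G C}

/-- `G` is defeated in `k` attacks: for every configuration `C` with `|C| ≤ γ - 1` the attacker has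
a strategy that wins within at most `k` attacks. -/
def DefeatedIn (k : ℕ) : Prop := ∀ C : Finset V, C.card + 1 ≤ gamma G → AttackerWins G k C

theorem AttackerWins.succ {k : ℕ} {C : Finset V} (h : AttackerWins G k C) :
    AttackerWins G (k + 1) C := by
  induction k generalizing C with
  | zero => exact h.elim
  | succ k ih =>
    obtain ⟨a, ha⟩ := h
    exact ⟨a, fun C' h1 h2 => ih (ha C' h1 h2)⟩

theorem AttackerWins.mono {k l : ℕ} {C : Finset V} (h : AttackerWins G k C) (hkl : k ≤ l) :
    AttackerWins G l C := by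
  induction hkl with
  | refl => exact h
  | step _ ih => exact AttackerWins.succ G ih

theorem not_eternal {k : ℕ} {C : Finset V} (h : AttackerWins G k C) : ¬ Eternal G C := by
  rintro ⟨F, hC, hF⟩
  induction k generalizing C with
  | zero => exact h
  | succ k ih =>
    obtain ⟨a, ha⟩ := h
    obtain ⟨C', h1, h2, h3⟩ := hF C hC a
    exact ih (ha C' h2 h3) h1

theorem response_card {C C' : Finset V} (h : Response G C C') : C'.card = C.card := by
  obtain ⟨f, -, h2, rfl⟩ := h
  exact Finset.card_image_of_injOn h2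

end game

/-! ### The graph and the certificates -/

/-- Closed neighbourhoods. -/
def nbd : List (List ℕ) :=
  [[0, 2, 3, 4, 6, 8, 10, 13],
   [1, 6, 7, 8, 9, 10, 11, 13],
   [0, 2, 4, 7, 10],
   [0, 3, 4, 6, 8, 11],
   [0, 2, 3, 4, 5, 8, 12],
   [4, 5, 7, 9, 13],
   [0, 1, 3, 6, 10, 12],
   [1, 2, 5, 7, 9, 11, 12, 13],
   [0, 1, 3, 4, 8, 9],
   [1, 5, 7, 8, 9, 12],
   [0, 1, 2, 6, 10],
   [1, 3, 7, 11, 12, 13],
   [4, 6, 7, 9, 11, 12],
   [0, 1, 5, 7, 11, 13]]

/-- The closed neighbourhood of the vertex `i`. -/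
def nb (i : ℕ) : List ℕ := nbd.getD i []

theorem nb_lt : ∀ a : Fin 14, ∀ x ∈ nb a, x < 14 := by decide

/-- The graph on `14` vertices. -/
def G : SimpleGraph (Fin 14) where
  Adj i j := i ≠ j ∧ (j : ℕ) ∈ nb i
  symm := ⟨by decide⟩
  loopless := ⟨fun i h => h.1 rfl⟩

instance : DecidableRel G.Adj := fun i j => inferInstanceAs (Decidable (i ≠ j ∧ (j : ℕ) ∈ nb i))

theorem self_mem : ∀ a : Fin 14, (a : ℕ) ∈ nb a := by decide

/-- The three-element dominating sets `C` as triples: the code `∑ 2 ^ v`, the rank (the number of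
attacks the attacker needs), and `2 ^ a` for a good attack `a`. -/
def tbl : List (ℕ × ℕ × ℕ) :=
  [
   (19, 16, 256), (22, 17, 256), (26, 2, 1024), (50, 9, 512), (82, 14, 4), (131, 16, 512),
   (133, 13, 2048), (137, 16, 256), (138, 16, 512), (140, 5, 8192), (145, 16, 256),
   (146, 16, 512), (161, 16, 512), (193, 3, 2048), (200, 17, 256), (208, 17, 256),
   (274, 15, 64), (385, 7, 2048), (386, 16, 512), (448, 7, 2048), (515, 2, 4), (521, 16, 256),
   (530, 2, 4), (641, 8, 64), (1042, 17, 256), (1153, 3, 2048), (1160, 11, 4096),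
   (1168, 17, 256), (1408, 7, 2048), (2066, 2, 32), (2081, 17, 256), (2177, 12, 1024),
   (2561, 6, 4), (4114, 10, 32), (4225, 16, 512), (4609, 15, 8192), (8210, 14, 4),
   (8321, 4, 64), (8705, 8, 64), (12289, 17, 256)]

/-- The same for the two-element dominating sets. -/
def tbl2 : List (ℕ × ℕ × ℕ) :=
  [
   (18, 2, 4), (129, 2, 4)]

/-- look-up, with the default rank `1` -/
def look : List (ℕ × ℕ × ℕ) → ℕ → ℕ × ℕ
  | [], _ => (1, 0)
  | (k, r, t) :: l, m => bif Nat.beq k m then (r, t) else look l m

/-- the powers `2 ^ x` for `x` in the closed neighbourhood of `i` -/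
def P (i : ℕ) : List ℕ := (nb i).map (fun x => 2 ^ x)

/-- all powers -/
def allP : List ℕ := (List.range 14).map (fun x => 2 ^ x)

def distinct3 (x y z : ℕ) : Bool := !(Nat.beq x y) && (!(Nat.beq y z) && !(Nat.beq x z))

def hit3 (t x y z : ℕ) : Bool := Nat.beq x t || (Nat.beq y t || Nat.beq z t)

def attackOk (a b c : ℕ) : Bool :=
  (Nat.beq (look tbl (2 ^ a + 2 ^ b + 2 ^ c)).1 1 &&
    allP.any fun t => !((P a).any fun x => Nat.beq x t) && (!((P b).any fun x => Nat.beq x t) &&
      !((P c).any fun x => Nat.beq x t))) ||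
  ((allP.any fun t => Nat.beq t (look tbl (2 ^ a + 2 ^ b + 2 ^ c)).2) &&
    (P a).all fun x => (P b).all fun y => (P c).all fun z =>
    !(distinct3 x y z && hit3 (look tbl (2 ^ a + 2 ^ b + 2 ^ c)).2 x y z) ||
      Nat.blt (look tbl (x + y + z)).1 (look tbl (2 ^ a + 2 ^ b + 2 ^ c)).1)

def defendOk (a b c : ℕ) : Bool :=
  Nat.beq (look tbl (2 ^ a + 2 ^ b + 2 ^ c)).1 1 ||
  (allP.all fun t => (P a).any fun x => (P b).any fun y => (P c).any fun z =>
    (distinct3 x y z && hit3 t x y z) &&
      Nat.ble (look tbl (2 ^ a + 2 ^ b + 2 ^ c)).1 ((look tbl (x + y + z)).1 + 1))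

def allOk : Bool :=
  (List.range 14).all fun a => (List.range 14).all fun b => (List.range 14).all fun c =>
    !(Nat.blt a b && Nat.blt b c) || (attackOk a b c && defendOk a b c)

theorem allOk_true : allOk = true := by decide +kernel

def attackOk2 (a b : ℕ) : Bool :=
  (Nat.beq (look tbl2 (2 ^ a + 2 ^ b)).1 1 &&
    allP.any fun t => !((P a).any fun x => Nat.beq x t) && !((P b).any fun x => Nat.beq x t)) ||
  ((allP.any fun t => Nat.beq t (look tbl2 (2 ^ a + 2 ^ b)).2) &&
    (P a).all fun x => (P b).all fun y =>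
    !(!(Nat.beq x y) && (Nat.beq x (look tbl2 (2 ^ a + 2 ^ b)).2 ||
        Nat.beq y (look tbl2 (2 ^ a + 2 ^ b)).2)) ||
      Nat.blt (look tbl2 (x + y)).1 (look tbl2 (2 ^ a + 2 ^ b)).1)

def allOk2 : Bool :=
  (List.range 14).all fun a => (List.range 14).all fun b => !(Nat.blt a b) || attackOk2 a b

theorem allOk2_true : allOk2 = true := by decide +kernel

theorem one_guard : ∀ a : Fin 14, ∃ t : Fin 14, (t : ℕ) ∉ nb a := by decide

/-! ### Soundness of the certificates -/

theorem beq_false_of_ne {x y : ℕ} (h : x ≠ y) : Nat.beq x y = false := by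
  cases h' : Nat.beq x y
  · rfl
  · exact absurd (Nat.eq_of_beq_eq_true h') h

/-- The rank of a configuration with three guards. -/
def rk (C : Finset (Fin 14)) : ℕ := (look tbl (∑ v ∈ C, 2 ^ (v : ℕ))).1

/-- The rank of a configuration with two guards. -/
def rk2 (C : Finset (Fin 14)) : ℕ := (look tbl2 (∑ v ∈ C, 2 ^ (v : ℕ))).1

theorem sum3 {a b c : Fin 14} (hab : a ≠ b) (hac : a ≠ c) (hbc : b ≠ c) :
    ∑ v ∈ ({a, b, c} : Finset (Fin 14)), 2 ^ (v : ℕ) =
      2 ^ (a : ℕ) + 2 ^ (b : ℕ) + 2 ^ (c : ℕ) := by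
  rw [Finset.sum_insert, Finset.sum_pair hbc, add_assoc]
  simp [hab, hac]

theorem mem_P {a : Fin 14} {p : ℕ} : p ∈ P a ↔ ∃ x : Fin 14, (x = a ∨ G.Adj a x) ∧ 2 ^ (x : ℕ) = p := by
  unfold P
  rw [List.mem_map]
  constructor
  · rintro ⟨x, hx, rfl⟩
    refine ⟨⟨x, nb_lt a x hx⟩, ?_, rfl⟩
    by_cases h : (⟨x, nb_lt a x hx⟩ : Fin 14) = a
    · exact Or.inl h
    · exact Or.inr ⟨Ne.symm h, hx⟩
  · rintro ⟨x, hx, rfl⟩
    refine ⟨x, ?_, rfl⟩
    rcases hx with rfl | hx
    · exact self_mem x
    · exact hx.2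

theorem mem_allP {p : ℕ} : p ∈ allP ↔ ∃ x : Fin 14, 2 ^ (x : ℕ) = p := by
  unfold allP
  rw [List.mem_map]
  constructor
  · rintro ⟨x, hx, rfl⟩
    exact ⟨⟨x, List.mem_range.1 hx⟩, rfl⟩
  · rintro ⟨x, rfl⟩
    exact ⟨x, List.mem_range.2 x.2, rfl⟩

theorem pow_inj {x y : Fin 14} : (2 ^ (x : ℕ) = 2 ^ (y : ℕ)) ↔ x = y := by
  rw [Nat.pow_right_inj (le_refl 2)]
  exact Fin.ext_iff.symm

theorem exists_sorted {C : Finset (Fin 14)} (hC : C.card = 3) :
    ∃ a b c : Fin 14, a < b ∧ b < c ∧ C = {a, b, c} := by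
  refine ⟨C.orderEmbOfFin hC 0, C.orderEmbOfFin hC 1, C.orderEmbOfFin hC 2, ?_, ?_, ?_⟩
  · exact (C.orderEmbOfFin hC).strictMono (by decide)
  · exact (C.orderEmbOfFin hC).strictMono (by decide)
  · have h := Finset.image_orderEmbOfFin_univ C hC
    conv_lhs => rw [← h]
    ext x
    simp only [Finset.mem_image, Finset.mem_univ, true_and, Finset.mem_insert,
      Finset.mem_singleton]
    constructor
    · rintro ⟨i, rfl⟩
      fin_cases i <;> simp
    · rintro (rfl | rfl | rfl)
      · exact ⟨0, rfl⟩
      · exact ⟨1, rfl⟩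
      · exact ⟨2, rfl⟩

theorem ok_of_sorted {a b c : Fin 14} (hab : a < b) (hbc : b < c) :
    attackOk a b c = true ∧ defendOk a b c = true := by
  have h := allOk_true
  unfold allOk at h
  rw [List.all_eq_true] at h
  have h1 := h a (List.mem_range.2 a.2)
  rw [List.all_eq_true] at h1
  have h2 := h1 b (List.mem_range.2 b.2)
  rw [List.all_eq_true] at h2
  have h3 := h2 c (List.mem_range.2 c.2)
  have e1 : Nat.blt a b = true := by
    rw [Nat.blt_eq]
    exact hab
  have e2 : Nat.blt b c = true := by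
    rw [Nat.blt_eq]
    exact hbc
  rw [e1, e2] at h3
  simpa using h3

/-- The defender cannot cover an undominated vertex. -/
theorem response_mem {C C' : Finset (Fin 14)} (h : Response G C C') {t : Fin 14} (ht : t ∈ C') :
    ∃ v ∈ C, t = v ∨ G.Adj v t := by
  obtain ⟨f, h1, -, rfl⟩ := h
  obtain ⟨v, hv, rfl⟩ := Finset.mem_image.1 ht
  exact ⟨v, hv, h1 v hv⟩

theorem attack3 (r : ℕ) : ∀ C : Finset (Fin 14), C.card = 3 → rk C ≤ r → AttackerWins G r C := by
  induction r with
  | zero =>
    intro C hC hr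
    exfalso
    obtain ⟨a, b, c, hab, hbc, rfl⟩ := exists_sorted hC
    have h := (ok_of_sorted hab hbc).1
    have hrk : rk {a, b, c} = (look tbl (2 ^ (a : ℕ) + 2 ^ (b : ℕ) + 2 ^ (c : ℕ))).1 := by
      rw [rk, sum3 hab.ne (hab.trans hbc).ne hbc.ne]
    have hpos : ∀ m, 1 ≤ (look tbl m).1 := by
      intro m
      have key : ∀ l : List (ℕ × ℕ × ℕ), (∀ q ∈ l, 1 ≤ q.2.1) → 1 ≤ (look l m).1 := by
        intro l
        induction l with
        | nil => intro _; exact le_rfl
        | cons q l ih =>
          intro hl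
          obtain ⟨k, r, t⟩ := q
          rw [look]
          cases Nat.beq k m
          · exact ih fun q hq => hl q (List.mem_cons_of_mem _ hq)
          · exact hl (k, r, t) List.mem_cons_self
      exact key tbl (by decide)
    have := hpos (2 ^ (a : ℕ) + 2 ^ (b : ℕ) + 2 ^ (c : ℕ))
    omega
  | succ r ih =>
    intro C hC hr
    obtain ⟨a, b, c, hab, hbc, rfl⟩ := exists_sorted hC
    have h := (ok_of_sorted hab hbc).1
    have hrk : rk {a, b, c} = (look tbl (2 ^ (a : ℕ) + 2 ^ (b : ℕ) + 2 ^ (c : ℕ))).1 := by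
      rw [rk, sum3 hab.ne (hab.trans hbc).ne hbc.ne]
    unfold attackOk at h
    rw [Bool.or_eq_true] at h
    rcases h with h | h
    · -- an undominated vertex
      rw [Bool.and_eq_true] at h
      obtain ⟨t, ht, h2⟩ := List.any_eq_true.1 h.2
      obtain ⟨t, rfl⟩ := mem_allP.1 ht
      simp only [Bool.and_eq_true, Bool.not_eq_true', List.any_eq_false, Nat.beq_eq,
        ] at h2
      refine ⟨t, fun C' h3 h4 => ?_⟩
      exfalso
      obtain ⟨v, hv, h5⟩ := response_mem h3 h4
      have h6 : ∃ x : Fin 14, (x = v ∨ G.Adj v x) ∧ 2 ^ (x : ℕ) = 2 ^ (t : ℕ) := ⟨t, h5, rfl⟩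
      rw [← mem_P] at h6
      simp only [Finset.mem_insert, Finset.mem_singleton] at hv
      rcases hv with rfl | rfl | rfl
      · exact h2.1 _ h6 rfl
      · exact h2.2.1 _ h6 rfl
      · exact h2.2.2 _ h6 rfl
    · rw [Bool.and_eq_true] at h
      obtain ⟨t, ht, h2⟩ := List.any_eq_true.1 h.1
      obtain ⟨t, rfl⟩ := mem_allP.1 ht
      have ht' : (look tbl (2 ^ (a : ℕ) + 2 ^ (b : ℕ) + 2 ^ (c : ℕ))).2 = 2 ^ (t : ℕ) :=
        (Nat.eq_of_beq_eq_true h2).symm
      have h3 := h.2
      rw [ht', ← hrk] at h3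
      refine ⟨t, fun C' hR htC => ?_⟩
      have hC' : C'.card = 3 := by
        rw [response_card G hR, hC]
      refine ih C' hC' ?_
      obtain ⟨f, hf1, hf2, rfl⟩ := hR
      have ha : a ∈ ({a, b, c} : Finset (Fin 14)) := by simp
      have hb : b ∈ ({a, b, c} : Finset (Fin 14)) := by simp
      have hc : c ∈ ({a, b, c} : Finset (Fin 14)) := by simp
      have fab : f a ≠ f b := fun h => hab.ne (hf2 ha hb h)
      have fac : f a ≠ f c := fun h => (hab.trans hbc).ne (hf2 ha hc h)
      have fbc : f b ≠ f c := fun h => hbc.ne (hf2 hb hc h)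
      have himg : ({a, b, c} : Finset (Fin 14)).image f = {f a, f b, f c} := by
        simp [Finset.image_insert]
      rw [List.all_eq_true] at h3
      have h4 := h3 _ (mem_P.2 ⟨f a, hf1 a ha, rfl⟩)
      rw [List.all_eq_true] at h4
      have h5 := h4 _ (mem_P.2 ⟨f b, hf1 b hb, rfl⟩)
      rw [List.all_eq_true] at h5
      have h6 := h5 _ (mem_P.2 ⟨f c, hf1 c hc, rfl⟩)
      rw [himg] at htC ⊢
      have hd : distinct3 (2 ^ (f a : ℕ)) (2 ^ (f b : ℕ)) (2 ^ (f c : ℕ)) = true := by
        unfold distinct3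
        rw [beq_false_of_ne fun h => fab (pow_inj.1 h), beq_false_of_ne fun h => fbc (pow_inj.1 h),
          beq_false_of_ne fun h => fac (pow_inj.1 h)]
        rfl
      have hh : hit3 (2 ^ (t : ℕ)) (2 ^ (f a : ℕ)) (2 ^ (f b : ℕ)) (2 ^ (f c : ℕ)) = true := by
        unfold hit3
        simp only [Bool.or_eq_true, Nat.beq_eq]
        simp only [Finset.mem_insert, Finset.mem_singleton] at htC
        rcases htC with h | h | h
        · exact Or.inl (pow_inj.2 h.symm)
        · exact Or.inr (Or.inl (pow_inj.2 h.symm))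
        · exact Or.inr (Or.inr (pow_inj.2 h.symm))
      rw [hd, hh] at h6
      simp only [Bool.and_self, Bool.not_true, Bool.false_or, Nat.blt_eq] at h6
      have hrk' : rk {f a, f b, f c} =
          (look tbl (2 ^ (f a : ℕ) + 2 ^ (f b : ℕ) + 2 ^ (f c : ℕ))).1 := by
        rw [rk, sum3 fab fac fbc]
      omega

theorem ok2_of_lt {a b : Fin 14} (hab : a < b) : attackOk2 a b = true := by
  have h := allOk2_true
  unfold allOk2 at h
  rw [List.all_eq_true] at h
  have h1 := h a (List.mem_range.2 a.2)
  rw [List.all_eq_true] at h1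
  have h2 := h1 b (List.mem_range.2 b.2)
  have e1 : Nat.blt a b = true := by
    rw [Nat.blt_eq]
    exact hab
  rw [e1] at h2
  simpa using h2

theorem attack2 (r : ℕ) : ∀ C : Finset (Fin 14), C.card = 2 → rk2 C ≤ r → AttackerWins G r C := by
  induction r with
  | zero =>
    intro C hC hr
    exfalso
    have hpos : ∀ m, 1 ≤ (look tbl2 m).1 := by
      intro m
      have key : ∀ l : List (ℕ × ℕ × ℕ), (∀ q ∈ l, 1 ≤ q.2.1) → 1 ≤ (look l m).1 := by
        intro l
        induction l with
        | nil => intro _; exact le_rfl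
        | cons q l ih =>
          intro hl
          obtain ⟨k, r, t⟩ := q
          rw [look]
          cases Nat.beq k m
          · exact ih fun q hq => hl q (List.mem_cons_of_mem _ hq)
          · exact hl (k, r, t) List.mem_cons_self
      exact key tbl2 (by decide)
    have := hpos (∑ v ∈ C, 2 ^ (v : ℕ))
    unfold rk2 at hr
    omega
  | succ r ih =>
    intro C hC hr
    obtain ⟨a, b, hab, rfl⟩ : ∃ a b : Fin 14, a < b ∧ C = {a, b} := by
      obtain ⟨a, b, hab, rfl⟩ := Finset.card_eq_two.1 hC
      rcases lt_or_gt_of_ne hab with h | h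
      · exact ⟨a, b, h, rfl⟩
      · exact ⟨b, a, h, Finset.pair_comm a b⟩
    have h := ok2_of_lt hab
    have hrk : rk2 {a, b} = (look tbl2 (2 ^ (a : ℕ) + 2 ^ (b : ℕ))).1 := by
      rw [rk2, Finset.sum_pair hab.ne]
    unfold attackOk2 at h
    rw [Bool.or_eq_true] at h
    rcases h with h | h
    · rw [Bool.and_eq_true] at h
      obtain ⟨t, ht, h2⟩ := List.any_eq_true.1 h.2
      obtain ⟨t, rfl⟩ := mem_allP.1 ht
      simp only [Bool.and_eq_true, Bool.not_eq_true', List.any_eq_false, Nat.beq_eq] at h2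
      refine ⟨t, fun C' h3 h4 => ?_⟩
      exfalso
      obtain ⟨v, hv, h5⟩ := response_mem h3 h4
      have h6 : ∃ x : Fin 14, (x = v ∨ G.Adj v x) ∧ 2 ^ (x : ℕ) = 2 ^ (t : ℕ) := ⟨t, h5, rfl⟩
      rw [← mem_P] at h6
      simp only [Finset.mem_insert, Finset.mem_singleton] at hv
      rcases hv with rfl | rfl
      · exact h2.1 _ h6 rfl
      · exact h2.2 _ h6 rfl
    · rw [Bool.and_eq_true] at h
      obtain ⟨t, ht, h2⟩ := List.any_eq_true.1 h.1
      obtain ⟨t, rfl⟩ := mem_allP.1 ht
      have ht' : (look tbl2 (2 ^ (a : ℕ) + 2 ^ (b : ℕ))).2 = 2 ^ (t : ℕ) :=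
        (Nat.eq_of_beq_eq_true h2).symm
      have h3 := h.2
      rw [ht', ← hrk] at h3
      refine ⟨t, fun C' hR htC => ?_⟩
      have hC' : C'.card = 2 := by
        rw [response_card G hR, hC]
      refine ih C' hC' ?_
      obtain ⟨f, hf1, hf2, rfl⟩ := hR
      have ha : a ∈ ({a, b} : Finset (Fin 14)) := by simp
      have hb : b ∈ ({a, b} : Finset (Fin 14)) := by simp
      have fab : f a ≠ f b := fun h => hab.ne (hf2 ha hb h)
      have himg : ({a, b} : Finset (Fin 14)).image f = {f a, f b} := by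
        simp [Finset.image_insert]
      rw [List.all_eq_true] at h3
      have h4 := h3 _ (mem_P.2 ⟨f a, hf1 a ha, rfl⟩)
      rw [List.all_eq_true] at h4
      have h5 := h4 _ (mem_P.2 ⟨f b, hf1 b hb, rfl⟩)
      rw [himg] at htC ⊢
      have hh : (Nat.beq (2 ^ (f a : ℕ)) (2 ^ (t : ℕ)) || Nat.beq (2 ^ (f b : ℕ)) (2 ^ (t : ℕ))) = true := by
        simp only [Bool.or_eq_true, Nat.beq_eq]
        simp only [Finset.mem_insert, Finset.mem_singleton] at htC
        rcases htC with h | h
        · exact Or.inl (pow_inj.2 h.symm)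
        · exact Or.inr (pow_inj.2 h.symm)
      rw [beq_false_of_ne fun h => fab (pow_inj.1 h), hh] at h5
      simp only [Bool.not_false, Bool.and_self, Bool.not_true, Bool.false_or, Nat.blt_eq] at h5
      have hrk' : rk2 {f a, f b} = (look tbl2 (2 ^ (f a : ℕ) + 2 ^ (f b : ℕ))).1 := by
        rw [rk2, Finset.sum_pair fab]
      omega

/-- The attacker wins from every configuration with at most three guards. -/
theorem attack_le3 (C : Finset (Fin 14)) (hC : C.card ≤ 3) : ∃ k, AttackerWins G k C := by
  have h : C.card = 0 ∨ C.card = 1 ∨ C.card = 2 ∨ C.card = 3 := by omega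
  rcases h with h | h | h | h
  · rw [Finset.card_eq_zero] at h
    subst h
    refine ⟨1, 0, fun C' h1 h2 => ?_⟩
    obtain ⟨v, hv, -⟩ := response_mem h1 h2
    exact absurd hv (Finset.notMem_empty v)
  · obtain ⟨a, rfl⟩ := Finset.card_eq_one.1 h
    obtain ⟨t, ht⟩ := one_guard a
    refine ⟨1, t, fun C' h1 h2 => ?_⟩
    obtain ⟨v, hv, h3⟩ := response_mem h1 h2
    rw [Finset.mem_singleton] at hv
    subst hv
    rcases h3 with h3 | h3
    · exact ht (h3 ▸ self_mem t)
    · exact ht h3.2
  · exact ⟨_, attack2 _ C h le_rfl⟩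
  · exact ⟨_, attack3 _ C h le_rfl⟩

/-- The defender survives: rank larger than `k` means no win within `k` attacks. -/
theorem defend (k : ℕ) : ∀ C : Finset (Fin 14), C.card = 3 → k < rk C → ¬ AttackerWins G k C := by
  induction k with
  | zero => exact fun C _ _ h => h
  | succ k ih =>
    rintro C hC hr ⟨t, ht⟩
    obtain ⟨a, b, c, hab, hbc, rfl⟩ := exists_sorted hC
    have h := (ok_of_sorted hab hbc).2
    have hrk : rk {a, b, c} = (look tbl (2 ^ (a : ℕ) + 2 ^ (b : ℕ) + 2 ^ (c : ℕ))).1 := by
      rw [rk, sum3 hab.ne (hab.trans hbc).ne hbc.ne]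
    unfold defendOk at h
    rw [← hrk, Bool.or_eq_true] at h
    rcases h with h | h
    · have := Nat.eq_of_beq_eq_true h
      omega
    · rw [List.all_eq_true] at h
      have h1 := h _ (mem_allP.2 ⟨t, rfl⟩)
      obtain ⟨x, hx, h2⟩ := List.any_eq_true.1 h1
      obtain ⟨y, hy, h3⟩ := List.any_eq_true.1 h2
      obtain ⟨z, hz, h4⟩ := List.any_eq_true.1 h3
      obtain ⟨x, hx', rfl⟩ := mem_P.1 hx
      obtain ⟨y, hy', rfl⟩ := mem_P.1 hy
      obtain ⟨z, hz', rfl⟩ := mem_P.1 hz
      rw [Bool.and_eq_true, Bool.and_eq_true] at h4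
      obtain ⟨⟨h5, h6⟩, h7⟩ := h4
      have hxy : x ≠ y := by
        rintro rfl
        simp [distinct3] at h5
      have hyz : y ≠ z := by
        rintro rfl
        simp [distinct3] at h5
      have hxz : x ≠ z := by
        rintro rfl
        simp [distinct3] at h5
      have hac : a ≠ c := (hab.trans hbc).ne
      set f : Fin 14 → Fin 14 := fun v => if v = a then x else if v = b then y else z with hf
      have fa : f a = x := by simp [hf]
      have fb : f b = y := by simp [hf, hab.ne']
      have fc : f c = z := by simp [hf, hac.symm, hbc.ne']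
      have himg : ({a, b, c} : Finset (Fin 14)).image f = {x, y, z} := by
        simp only [Finset.image_insert, Finset.image_singleton, fa, fb, fc]
      have hresp : Response G {a, b, c} {x, y, z} := by
        refine ⟨f, fun v hv => ?_, ?_, himg⟩
        · simp only [Finset.mem_insert, Finset.mem_singleton] at hv
          rcases hv with rfl | rfl | rfl
          · rw [fa]; exact hx'
          · rw [fb]; exact hy'
          · rw [fc]; exact hz'
        · intro u hu v hv huv
          simp only [Finset.coe_insert, Finset.coe_singleton, Set.mem_insert_iff,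
            Set.mem_singleton_iff] at hu hv
          rcases hu with rfl | rfl | rfl <;> rcases hv with rfl | rfl | rfl <;>
            simp only [fa, fb, fc] at huv <;> first
            | rfl
            | exact absurd huv hxy
            | exact absurd huv hxy.symm
            | exact absurd huv hyz
            | exact absurd huv hyz.symm
            | exact absurd huv hxz
            | exact absurd huv hxz.symm
      have hmem : t ∈ ({x, y, z} : Finset (Fin 14)) := by
        unfold hit3 at h6
        simp only [Bool.or_eq_true, Nat.beq_eq] at h6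
        simp only [Finset.mem_insert, Finset.mem_singleton]
        rcases h6 with h | h | h
        · exact Or.inl (pow_inj.1 h).symm
        · exact Or.inr (Or.inl (pow_inj.1 h).symm)
        · exact Or.inr (Or.inr (pow_inj.1 h).symm)
      have hrk' : rk {x, y, z} = (look tbl (2 ^ (x : ℕ) + 2 ^ (y : ℕ) + 2 ^ (z : ℕ))).1 := by
        rw [rk, sum3 hxy hxz hyz]
      refine ih {x, y, z} ?_ ?_ (ht _ hresp hmem)
      · rw [response_card G hresp, hC]
      · have := Nat.le_of_ble_eq_true h7
        omega

theorem four_le_gamma : 4 ≤ gamma G := by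
  refine le_csInf ?_ ?_
  · refine ⟨14, Finset.univ, by simp, {Finset.univ}, rfl, ?_⟩
    rintro D rfl a
    exact ⟨Finset.univ, rfl, ⟨id, fun v _ => Or.inl rfl, Set.injOn_id _, by simp⟩,
      Finset.mem_univ a⟩
  · rintro m ⟨C, rfl, hC⟩
    by_contra hlt
    obtain ⟨k, hk⟩ := attack_le3 C (by omega)
    exact not_eternal G hk hC

theorem connected : G.Connected := by
  have step : ∀ u v : Fin 14, G.Adj u v → G.Reachable 0 u → G.Reachable 0 v :=
    fun u v h hu => hu.trans h.reachable
  have r0 : G.Reachable 0 0 := SimpleGraph.Reachable.refl 0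
  have r2 : G.Reachable 0 2 := step 0 2 (by decide) r0
  have r3 : G.Reachable 0 3 := step 0 3 (by decide) r0
  have r4 : G.Reachable 0 4 := step 0 4 (by decide) r0
  have r6 : G.Reachable 0 6 := step 0 6 (by decide) r0
  have r8 : G.Reachable 0 8 := step 0 8 (by decide) r0
  have r10 : G.Reachable 0 10 := step 0 10 (by decide) r0
  have r13 : G.Reachable 0 13 := step 0 13 (by decide) r0
  have r7 : G.Reachable 0 7 := step 2 7 (by decide) r2
  have r11 : G.Reachable 0 11 := step 3 11 (by decide) r3
  have r5 : G.Reachable 0 5 := step 4 5 (by decide) r4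
  have r12 : G.Reachable 0 12 := step 4 12 (by decide) r4
  have r1 : G.Reachable 0 1 := step 6 1 (by decide) r6
  have r9 : G.Reachable 0 9 := step 8 9 (by decide) r8
  rw [SimpleGraph.connected_iff_exists_forall_reachable]
  refine ⟨0, fun v => ?_⟩
  fin_cases v <;> assumption

/-- **Theorem.** There is a connected graph `G` on `14` vertices that is not defeated in `14`
attacks, and not even in `16` attacks: some configuration of at most `γ - 1` guards lets the
defender survive the first `16` attacks. -/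
theorem result : ∃ G : SimpleGraph (Fin 14), G.Connected ∧ ¬ DefeatedIn G 14 ∧
    ¬ DefeatedIn G 16 := by
  have h : ¬ DefeatedIn G 16 := by
    intro h
    refine defend 16 {0, 5, 11} (by decide) ?_ (h _ ?_)
    · decide +kernel
    · have := four_le_gamma
      have hc : ({0, 5, 11} : Finset (Fin 14)).card = 3 := by decide
      omega
  exact ⟨G, connected, fun h' => h fun C hC => AttackerWins.mono G (h' C hC) (by norm_num), h⟩

end Pool.Agent.Results.MP_18a4fa_co.LongAttack
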